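import Mathlib

namespace Pool.Agent.Results.MP_5ab958_co.Ring

/-- An edge-ordered graph: a simple graph with a strict linear order `lt` on its edge set. -/
structure EOG (V : Type) where
  G : SimpleGraph V
  lt : Sym2 V → Sym2 V → Prop
  irrefl : ∀ e ∈ G.edgeSet, ¬ lt e e
  trans : ∀ e ∈ G.edgeSet, ∀ e' ∈ G.edgeSet, ∀ e'' ∈ G.edgeSet, lt e e' → lt e' e'' → lt e e''
  total : ∀ e ∈ G.edgeSet, ∀ e' ∈ G.edgeSet, e ≠ e' → lt e e' ∨ lt e' e

/-- `f` maps `F` onto a subgraph of `H`, preserving the edge order. -/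
def IsCopy {V W : Type} (F : EOG V) (H : EOG W) (f : V → W) : Prop :=
  Function.Injective f ∧ (∀ a b, F.G.Adj a b → H.G.Adj (f a) (f b)) ∧
    ∀ e ∈ F.G.edgeSet, ∀ e' ∈ F.G.edgeSet, F.lt e e' → H.lt (e.map f) (e'.map f)

/-- `H` contains `e₀ + F`: a copy of `F` and an edge `uv` disjoint from it and smaller than
all its edges. -/
def ContainsPlus {V W : Type} (H : EOG W) (F : EOG V) : Prop :=
  ∃ f, IsCopy F H f ∧ ∃ u v, H.G.Adj u v ∧ (∀ a, f a ≠ u ∧ f a ≠ v) ∧
    ∀ e ∈ F.G.edgeSet, H.lt s(u, v) (e.map f)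

theorem mem_add {W : Type} {H : SimpleGraph W} {u v : W} {e : Sym2 W}
    (he : e ∈ (H ⊔ SimpleGraph.edge u v).edgeSet) (hne : e ≠ s(u, v)) : e ∈ H.edgeSet := by
  rw [SimpleGraph.edgeSet_sup] at he
  rcases he with he | he
  · exact he
  · exact absurd (SimpleGraph.edgeSet_edge_subset he) hne

/-- `H` with the edge `uv` added as the new smallest edge. -/
def addMin {W : Type} (H : EOG W) (u v : W) : EOG W where
  G := H.G ⊔ SimpleGraph.edge u v
  lt e e' := e' ≠ s(u, v) ∧ (e = s(u, v) ∨ H.lt e e')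
  irrefl e he h := h.2.elim h.1 (H.irrefl e (mem_add he h.1))
  trans e he e' he' e'' he'' h h' := by
    refine ⟨h'.1, ?_⟩
    by_cases h0 : e = s(u, v)
    · exact Or.inl h0
    · exact Or.inr (H.trans e (mem_add he h0) e' (mem_add he' h.1) e'' (mem_add he'' h'.1)
        (h.2.resolve_left h0) (h'.2.resolve_left h.1))
  total e he e' he' hne := by
    by_cases h0 : e = s(u, v)
    · exact Or.inl ⟨fun h => hne (h0.trans h.symm), Or.inl h0⟩
    by_cases h1 : e' = s(u, v)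
    · exact Or.inr ⟨h0, Or.inl h1⟩
    exact (H.total e (mem_add he h0) e' (mem_add he' h1) hne).imp
      (fun h => ⟨h1, Or.inr h⟩) (fun h => ⟨h0, Or.inr h⟩)

/-- `H` avoids `e₀ + F`, and adding any non-edge as the smallest edge creates `e₀ + F`. -/
def Saturated {V W : Type} (H : EOG W) (F : EOG V) : Prop :=
  ¬ ContainsPlus H F ∧ ∀ u v, u ≠ v → ¬ H.G.Adj u v → ContainsPlus (addMin H u v) F

/-- Deleting at most two pairwise non-adjacent vertices leaves the graph connected. -/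
def NoIndependentCut {V : Type} (G : SimpleGraph V) : Prop :=
  ∀ S : Set V, S.ncard ≤ 2 → (∀ s ∈ S, ∀ t ∈ S, ¬ G.Adj s t) → (G.induce Sᶜ).Preconnected

theorem map_mem {V W : Type} {F : EOG V} {H : EOG W} {f : V → W} (h : IsCopy F H f)
    {e : Sym2 V} (he : e ∈ F.G.edgeSet) : e.map f ∈ H.G.edgeSet := by
  induction e using Sym2.ind with
  | _ a b => exact h.2.1 a b he

theorem copy_addMin {V W : Type} {F : EOG V} {H : EOG W} {f : V → W} (h : IsCopy F H f)
    {u v : W} (huv : ¬ H.G.Adj u v) : IsCopy F (addMin H u v) f :=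
  ⟨h.1, fun a b hab => Or.inl (h.2.1 a b hab), fun e he e' he' hl =>
    ⟨fun h0 => huv (by have := map_mem h he'; rwa [h0] at this), Or.inr (h.2.2 e he e' he' hl)⟩⟩

theorem reduce {V W : Type} [Finite W] (F : EOG V) (S : Finset W) (H0 : EOG W)
    (h1 : ∀ u v, H0.G.Adj u v → u ∈ S) (h2 : ¬ ContainsPlus H0 F)
    (h3 : ∀ u, ∃ f, IsCopy F H0 f ∧ (∀ a, f a ∈ S) ∧ ∀ a, f a ≠ u) :
    ∃ H : EOG W, Saturated H F ∧ H.G.edgeSet.ncard ≤ (S.card + 1).choose 2 := by
  classical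
  obtain ⟨H, ⟨k1, k2, k3⟩, hmax⟩ := (measure (fun H : EOG W => Nat.card (Sym2 W) - H.G.edgeSet.ncard)).wf.has_min
    {H | (∀ u v, H.G.Adj u v → u ∈ S) ∧ ¬ ContainsPlus H F ∧
      ∀ u, ∃ f, IsCopy F H f ∧ (∀ a, f a ∈ S) ∧ ∀ a, f a ≠ u} ⟨H0, h1, h2, h3⟩
  refine ⟨H, ⟨k2, fun u v huv hn => ?_⟩, ?_⟩
  · have hadj : (addMin H u v).G.Adj u v := Or.inr ((SimpleGraph.edge_adj _ _ _ _).2 ⟨Or.inl ⟨rfl, rfl⟩, huv⟩)
    have out : ∀ f, IsCopy F H f → (∀ a, f a ≠ u ∧ f a ≠ v) → ContainsPlus (addMin H u v) F :=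
      fun f hf hd => ⟨f, copy_addMin hf hn, u, v, hadj, hd, fun e he =>
        ⟨fun h0 => hn (by have := map_mem hf he; rwa [h0] at this), Or.inl rfl⟩⟩
    by_cases hu : u ∈ S
    · by_cases hv : v ∈ S
      · by_contra hc
        refine hmax (addMin H u v) ⟨?_, hc, fun w => ?_⟩ ?_
        · rintro a b (hab | hab)
          · exact k1 a b hab
          · rcases ((SimpleGraph.edge_adj _ _ _ _).1 hab).1 with ⟨rfl, _⟩ | ⟨rfl, _⟩ <;> assumption
        · obtain ⟨f, hf, hs, hw⟩ := k3 w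
          exact ⟨f, copy_addMin hf hn, hs, hw⟩
        · have hlt : H.G.edgeSet.ncard < (addMin H u v).G.edgeSet.ncard := by
            refine Set.ncard_lt_ncard ⟨SimpleGraph.edgeSet_mono le_sup_left, fun hsub => hn ?_⟩ (Set.toFinite _)
            exact hsub (show s(u, v) ∈ (addMin H u v).G.edgeSet from hadj)
          have hle : (addMin H u v).G.edgeSet.ncard ≤ Nat.card (Sym2 W) := by
            rw [← Set.ncard_univ]; exact Set.ncard_le_ncard (Set.subset_univ _) (Set.toFinite _)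
          show Nat.card (Sym2 W) - (addMin H u v).G.edgeSet.ncard < Nat.card (Sym2 W) - H.G.edgeSet.ncard
          omega
      · obtain ⟨f, hf, hs, hw⟩ := k3 u
        exact out f hf fun a => ⟨hw a, fun h => hv (h ▸ hs a)⟩
    · obtain ⟨f, hf, hs, hw⟩ := k3 v
      exact out f hf fun a => ⟨fun h => hu (h ▸ hs a), hw a⟩
  · rw [← Finset.card_sym2, ← Set.ncard_coe_finset]
    refine Set.ncard_le_ncard (fun e he => ?_) (Set.toFinite _)
    induction e using Sym2.ind with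
    | _ a b => exact Finset.mem_coe.2 (Finset.mk_mem_sym2_iff.2 ⟨k1 a b he, k1 b a (H.G.adj_symm he)⟩)

section ring
variable {V W : Type} (F : EOG V) (x y : V) (ψ : Fin 3 → V → W)
  (key : ∀ i j a b, ψ i a = ψ j b →
    (i = j ∧ a = b) ∨ (j = i + 1 ∧ a = y ∧ b = x) ∨ (i = j + 1 ∧ a = x ∧ b = y))
include key

theorem psi_inj (i : Fin 3) : Function.Injective (ψ i) := fun a b h => by
  have : ∀ i : Fin 3, i ≠ i + 1 := by decide
  rcases key i i a b h with h | h | h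
  exacts [h.2, absurd h.1 (this i), absurd h.1 (this i)]

theorem two {i j : Fin 3} {a b c d : V} (hab : a ≠ b) (h1 : ψ i a = ψ j c) (h2 : ψ i b = ψ j d) :
    i = j := by
  have t : ∀ i j : Fin 3, j = i + 1 → i ≠ j + 1 := by decide
  rcases key _ _ _ _ h1 with h | h | h
  · exact h.1
  · rcases key _ _ _ _ h2 with k | k | k
    exacts [k.1, absurd (h.2.1.trans k.2.1.symm) hab, absurd k.1 (t _ _ h.1)]
  · rcases key _ _ _ _ h2 with k | k | k
    exacts [k.1, absurd h.1 (t _ _ k.1), absurd (h.2.1.trans k.2.1.symm) hab]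

theorem uniq {i j : Fin 3} {e e' : Sym2 V} (he : e ∈ F.G.edgeSet)
    (h : e.map (ψ i) = e'.map (ψ j)) : i = j ∧ e = e' := by
  have hij : i = j := by
    induction e using Sym2.ind with
    | _ a b =>
      induction e' using Sym2.ind with
      | _ c d =>
        simp only [Sym2.map_mk, Sym2.eq_iff] at h
        rcases h with h | h <;> exact two x y ψ key (F.G.ne_of_adj he) h.1 h.2
  subst hij
  exact ⟨rfl, Sym2.map.injective (psi_inj x y ψ key i) h⟩

def ringG : SimpleGraph W where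
  Adj p q := ∃ i a b, F.G.Adj a b ∧ p = ψ i a ∧ q = ψ i b
  symm := ⟨fun _ _ ⟨i, a, b, h, hp, hq⟩ => ⟨i, b, a, h.symm, hq, hp⟩⟩
  loopless := ⟨fun _ ⟨i, _, _, h, hp, hq⟩ => h.ne (psi_inj x y ψ key i (hp.symm.trans hq))⟩

theorem ring_edge {E : Sym2 W} (h : E ∈ (ringG F x y ψ key).edgeSet) :
    ∃ i, ∃ e ∈ F.G.edgeSet, E = e.map (ψ i) := by
  induction E using Sym2.ind with
  | _ p q =>
    obtain ⟨i, a, b, h, rfl, rfl⟩ := h
    exact ⟨i, s(a, b), h, rfl⟩

omit key in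
def ringLt (E E' : Sym2 W) : Prop :=
  ∃ i, ∃ e ∈ F.G.edgeSet, ∃ j, ∃ e' ∈ F.G.edgeSet, E = e.map (ψ i) ∧ E' = e'.map (ψ j) ∧
    (F.lt e e' ∨ (e = e' ∧ i < j))

theorem ringLt_iff {i j : Fin 3} {e e' : Sym2 V} (he : e ∈ F.G.edgeSet) (he' : e' ∈ F.G.edgeSet) :
    ringLt F ψ (e.map (ψ i)) (e'.map (ψ j)) ↔ (F.lt e e' ∨ (e = e' ∧ i < j)) := by
  refine ⟨?_, fun h => ⟨i, e, he, j, e', he', rfl, rfl, h⟩⟩
  rintro ⟨i1, e1, _, j1, e1', _, h1, h2, h⟩
  obtain ⟨rfl, rfl⟩ := uniq F x y ψ key he h1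
  obtain ⟨rfl, rfl⟩ := uniq F x y ψ key he' h2
  exact h

def ringE : EOG W where
  G := ringG F x y ψ key
  lt := ringLt F ψ
  irrefl E hE h := by
    obtain ⟨i, e, he, rfl⟩ := ring_edge F x y ψ key hE
    rcases (ringLt_iff F x y ψ key he he).1 h with h | h
    exacts [F.irrefl e he h, lt_irrefl _ h.2]
  trans E hE E' hE' E'' hE'' h h' := by
    obtain ⟨i, e, he, rfl⟩ := ring_edge F x y ψ key hE
    obtain ⟨j, e', he', rfl⟩ := ring_edge F x y ψ key hE'
    obtain ⟨k, e'', he'', rfl⟩ := ring_edge F x y ψ key hE''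
    rw [ringLt_iff F x y ψ key (by assumption) (by assumption)] at h h' ⊢
    rcases h with h | ⟨rfl, h⟩
    · rcases h' with h' | ⟨rfl, h'⟩
      exacts [Or.inl (F.trans _ he _ he' _ he'' h h'), Or.inl h]
    · rcases h' with h' | ⟨rfl, h'⟩
      exacts [Or.inl h', Or.inr ⟨rfl, h.trans h'⟩]
  total E hE E' hE' hne := by
    obtain ⟨i, e, he, rfl⟩ := ring_edge F x y ψ key hE
    obtain ⟨j, e', he', rfl⟩ := ring_edge F x y ψ key hE'
    rw [ringLt_iff F x y ψ key he he', ringLt_iff F x y ψ key he' he]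
    by_cases h : e = e'
    · subst h
      rcases lt_trichotomy i j with h | rfl | h
      exacts [Or.inl (Or.inr ⟨rfl, h⟩), absurd rfl hne, Or.inr (Or.inr ⟨rfl, h⟩)]
    · exact (F.total e he e' he' h).imp Or.inl Or.inl

theorem ring_copy (i : Fin 3) : IsCopy F (ringE F x y ψ key) (ψ i) :=
  ⟨psi_inj x y ψ key i, fun a b h => ⟨i, a, b, h, rfl, rfl⟩,
    fun _ he _ he' h => (ringLt_iff F x y ψ key he he').2 (Or.inl h)⟩

theorem ring_avoid [Finite V] (hxy : F.G.Adj x y) (hmin : ∀ e ∈ F.G.edgeSet, ¬ F.lt e s(x, y))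
    (glue : ∀ i, ψ i y = ψ (i + 1) x) (hcut : NoIndependentCut F.G) :
    ¬ ContainsPlus (ringE F x y ψ key) F := by
  rintro ⟨f, hf, u, v, huv, hd, hlt⟩
  have hxy' : s(x, y) ∈ F.G.edgeSet := hxy
  have step1 : ∀ e ∈ F.G.edgeSet, ∀ i, e.map f ≠ s(x, y).map (ψ i) := by
    intro e he i h
    have h1 := hlt e he
    obtain ⟨j, e', he', h2⟩ := ring_edge F x y ψ key (E := s(u, v)) huv
    rw [h, h2] at h1
    rcases (ringLt_iff F x y ψ key he' hxy').1 h1 with h3 | ⟨rfl, h3⟩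
    · exact hmin e' he' h3
    · have t : ∀ i j : Fin 3, j < i → i = j + 1 ∨ j = i + 1 := by decide
      obtain ⟨z, hz1, hz2⟩ : ∃ z, z ∈ s(x, y).map (ψ i) ∧ z ∈ s(x, y).map (ψ j) := by
        rcases t i j h3 with rfl | rfl
        · exact ⟨ψ j y, by rw [glue]; simp, by simp⟩
        · exact ⟨ψ i y, by simp, by rw [glue]; simp⟩
      rw [← h] at hz1
      rw [← h2] at hz2
      obtain ⟨a, _, rfl⟩ := Sym2.mem_map.1 hz1
      rcases Sym2.mem_iff.1 hz2 with h | h
      exacts [(hd a).1 h, (hd a).2 h]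
  obtain ⟨i, a0, w0, hw0x, hw0y, hw0⟩ : ∃ i a0 w0, w0 ≠ x ∧ w0 ≠ y ∧ f a0 = ψ i w0 := by
    obtain ⟨i, c, d, hcd, hc, hd'⟩ := hf.2.1 x y hxy
    by_contra hcon
    push Not at hcon
    apply step1 _ hxy' i
    have hc' : c = x ∨ c = y := by
      by_contra h; push Not at h; exact hcon i x c h.1 h.2 hc
    have hd'' : d = x ∨ d = y := by
      by_contra h; push Not at h; exact hcon i y d h.1 h.2 hd'
    simp only [Sym2.map_mk, hc, hd']
    have := hcd.ne
    rcases hc' with rfl | rfl <;> rcases hd'' with rfl | rfl <;> first | rfl | exact Sym2.eq_swap | exact absurd rfl this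
  set S : Set V := {a | f a = ψ i x ∨ f a = ψ i y} with hS
  have hS2 : S.ncard ≤ 2 := by
    refine (Set.ncard_le_ncard_of_injOn (t := {ψ i x, ψ i y}) f (fun a ha => ha) hf.1.injOn
      (Set.toFinite _)).trans ?_
    exact (Set.ncard_insert_le _ _).trans (by simp)
  have hSi : ∀ s ∈ S, ∀ t ∈ S, ¬ F.G.Adj s t := by
    intro s hs t ht hst
    apply step1 s(s, t) hst i
    have : f s ≠ f t := fun h => hst.ne (hf.1 h)
    simp only [Sym2.map_mk]
    rcases hs with hs | hs <;> rcases ht with ht | ht <;> rw [hs, ht] at this ⊢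
    exacts [absurd rfl this, Sym2.eq_swap, absurd rfl this]
  have ha0 : a0 ∈ Sᶜ := by
    rintro (h | h)
    exacts [hw0x (psi_inj x y ψ key i (hw0.symm.trans h)), hw0y (psi_inj x y ψ key i (hw0.symm.trans h))]
  have hall : ∀ a, ∃ w, f a = ψ i w := by
    intro a
    by_cases ha : a ∈ S
    · exact ha.elim (fun h => ⟨x, h⟩) (fun h => ⟨y, h⟩)
    obtain ⟨p⟩ := hcut S hS2 hSi ⟨a0, ha0⟩ ⟨a, ha⟩
    have : ∀ (s t : (Sᶜ : Set V)) (p : (F.G.induce Sᶜ).Walk s t), (∃ w, f s = ψ i w) → ∃ w, f t = ψ i w := by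
      intro s t p
      induction p with
      | nil => exact id
      | @cons s s' t h p ih =>
        rintro ⟨w, hw⟩
        apply ih
        obtain ⟨j, c, d, _, hc, hd'⟩ := hf.2.1 s s' h
        rcases key _ _ _ _ (hw.symm.trans hc) with k | k | k
        · exact ⟨d, k.1 ▸ hd'⟩
        · exact absurd (Or.inr (k.2.1 ▸ hw)) s.2
        · exact absurd (Or.inl (k.2.1 ▸ hw)) s.2
    exact this _ _ p ⟨w0, hw0⟩
  choose g hg using hall
  have hginj : Function.Injective g := fun a b h => hf.1 (by rw [hg, hg, h])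
  have hcomp : ∀ e : Sym2 V, e.map f = (e.map g).map (ψ i) := by
    intro e; rw [Sym2.map_map]; congr 1; funext a; exact hg a
  have hmaps : ∀ e ∈ F.G.edgeSet, e.map g ∈ F.G.edgeSet \ {s(x, y)} := by
    intro e he
    refine ⟨?_, fun h => step1 e he i (by rw [hcomp, Set.mem_singleton_iff.1 h])⟩
    obtain ⟨j, e', he', h⟩ := ring_edge F x y ψ key (map_mem hf he)
    rw [hcomp] at h
    rw [← (uniq F x y ψ key he' h.symm).2]; exact he'
  have h1 := Set.ncard_le_ncard_of_injOn (Sym2.map g) hmaps (Sym2.map.injective hginj).injOn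
    (Set.toFinite _)
  have h2 := Set.ncard_diff_singleton_lt_of_mem hxy' (Set.toFinite _)
  omega

end ring

theorem result (V : Type) [Finite V] (F : EOG V) (hne : F.G.edgeSet.Nonempty)
    (hcut : NoIndependentCut F.G) :
    ∃ C N : ℕ, ∀ n ≥ N, ∃ H : EOG (Fin n), Saturated H F ∧ H.G.edgeSet.ncard ≤ C := by
  classical
  letI := Fintype.ofFinite V
  refine ⟨(Fintype.card (Fin 3 × V) + 1).choose 2, Fintype.card (Fin 3 × V), fun n hn => ?_⟩
  obtain ⟨ι⟩ : Nonempty (Fin 3 × V ↪ Fin n) :=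
    Function.Embedding.nonempty_of_card_le (by simpa using hn)
  let r : Sym2 V → Sym2 V → Prop := fun e e' => e ∈ F.G.edgeSet ∧ e' ∈ F.G.edgeSet ∧ F.lt e e'
  haveI : IsTrans _ r := ⟨fun a b c h h' => ⟨h.1, h'.2.1, F.trans a h.1 b h.2.1 c h'.2.1 h.2.2 h'.2.2⟩⟩
  haveI : Std.Irrefl r := ⟨fun a h => F.irrefl a h.1 h.2.2⟩
  obtain ⟨e0, he0, hmin⟩ := (Finite.wellFounded_of_trans_of_irrefl r).has_min _ hne
  induction e0 using Sym2.ind with
  | _ x y =>
  have hxy : F.G.Adj x y := he0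
  let ψ : Fin 3 → V → Fin n := fun i v => if v = y then ι (i + 1, x) else ι (i, v)
  have key : ∀ i j a b, ψ i a = ψ j b →
      (i = j ∧ a = b) ∨ (j = i + 1 ∧ a = y ∧ b = x) ∨ (i = j + 1 ∧ a = x ∧ b = y) := by
    intro i j a b h
    simp only [ψ] at h
    split_ifs at h with h1 h2 h2 <;> have h' := Prod.ext_iff.1 (ι.injective h)
    · exact Or.inl ⟨add_right_cancel h'.1, h1.trans h2.symm⟩
    · exact Or.inr (Or.inl ⟨h'.1.symm, h1, h'.2.symm⟩)
    · exact Or.inr (Or.inr ⟨h'.1, h'.2, h2⟩)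
    · exact Or.inl h'
  have glue : ∀ i, ψ i y = ψ (i + 1) x := fun i => by simp [ψ, hxy.ne]
  have hS : ∀ i a, ψ i a ∈ Finset.univ.map ι := fun i a => by
    simp only [ψ]; split_ifs <;> simp
  have := reduce F (Finset.univ.map ι) (ringE F x y ψ key) ?_
    (ring_avoid F x y ψ key hxy (fun e he h => hmin e he ⟨he, he0, h⟩) glue hcut) ?_
  · rwa [Finset.card_map, Finset.card_univ] at this
  · rintro u v ⟨i, a, b, _, rfl, _⟩
    exact hS i a
  · intro u
    by_contra hcon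
    have hex : ∀ i, ∃ a, ψ i a = u := fun i => by
      by_contra h
      exact hcon ⟨ψ i, ring_copy F x y ψ key i, hS i, fun a ha => h ⟨a, ha⟩⟩
    obtain ⟨a, ha⟩ := hex 0
    obtain ⟨b, hb⟩ := hex 1
    obtain ⟨c, hc⟩ := hex 2
    rcases key _ _ _ _ (ha.trans hb.symm) with k | k | k
    · exact absurd k.1 (by decide)
    · rcases key _ _ _ _ (hb.trans hc.symm) with k' | k' | k'
      · exact absurd k'.1 (by decide)
      · exact hxy.ne (k.2.2.symm.trans k'.2.1)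
      · exact absurd k'.1 (by decide)
    · exact absurd k.1 (by decide)

end Pool.Agent.Results.MP_5ab958_co.Ring
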